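import Mathlib

/-!
N628/SGE: entropy bound for binomial coefficients (for helper549, SG/ENT).
-/

set_option autoImplicit false

open Filter Topology

namespace Pool.Agent.N628.SGE

lemma phi_le {x : ℝ} (hx : 0 < x) : (x + 1) * Real.log (x + 1) - x * Real.log x ≤
    Real.log x + 1 + 1 / x := by
  have h1 : Real.log (x + 1) = Real.log x + Real.log (1 + 1 / x) := by
    rw [← Real.log_mul hx.ne' (by positivity)]
    congr 1
    field_simp
  have h2 : Real.log (1 + 1 / x) ≤ 1 / x := by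
    have := Real.log_le_sub_one_of_pos (by positivity : 0 < 1 + 1 / x)
    linarith
  rw [h1]
  have h3 : (x + 1) * Real.log (1 + 1 / x) ≤ (x + 1) * (1 / x) :=
    mul_le_mul_of_nonneg_left h2 (by positivity)
  have h4 : (x + 1) * (1 / x) = 1 + 1 / x := by field_simp
  linarith

lemma phi_ge {x : ℝ} (hx : 0 < x) : Real.log x + 1 ≤
    (x + 1) * Real.log (x + 1) - x * Real.log x := by
  have h1 : Real.log (x + 1) = Real.log x + Real.log (1 + 1 / x) := by
    rw [← Real.log_mul hx.ne' (by positivity)]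
    congr 1
    field_simp
  have h2 : 1 / (x + 1) ≤ Real.log (1 + 1 / x) := by
    have h3 := Real.one_sub_inv_le_log_of_pos (by positivity : 0 < 1 + 1 / x)
    have h4 : 1 - (1 + 1 / x)⁻¹ = 1 / (x + 1) := by
      field_simp
      ring
    rwa [h4] at h3
  rw [h1]
  have h3 : (x + 1) * (1 / (x + 1)) ≤ (x + 1) * Real.log (1 + 1 / x) :=
    mul_le_mul_of_nonneg_left h2 (by positivity)
  have h4 : (x + 1) * (1 / (x + 1)) = 1 := by field_simp
  linarith

lemma choose_ge {a : ℕ} (ha : 0 < a) (b : ℕ) :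
    ((a : ℝ) + b + 1) * Real.log ((a : ℝ) + b + 1) - ((b : ℝ) + 1) * Real.log ((b : ℝ) + 1) -
      ((a : ℝ) + 1) * Real.log ((a : ℝ) + 1) - b / a ≤ Real.log ((a + b).choose a : ℝ) := by
  have ha0 : (0 : ℝ) < a := by exact_mod_cast ha
  induction b with
  | zero => simp
  | succ b ih =>
    have hb0 : (0 : ℝ) ≤ b := Nat.cast_nonneg b
    have h1 := Nat.choose_mul_succ_eq (a + b) a
    have h2 : a + b + 1 - a = b + 1 := by omega
    rw [h2] at h1
    have h3 : ((a + b).choose a : ℝ) * ((a : ℝ) + b + 1) = ((a + (b + 1)).choose a : ℝ) * ((b : ℝ) + 1) := by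
      exact_mod_cast h1
    have hc1 : (0 : ℝ) < ((a + b).choose a : ℝ) := by
      exact_mod_cast Nat.choose_pos (Nat.le_add_right a b)
    have hc2 : (0 : ℝ) < ((a + (b + 1)).choose a : ℝ) := by
      exact_mod_cast Nat.choose_pos (Nat.le_add_right a (b + 1))
    have h4 := congrArg Real.log h3
    rw [Real.log_mul hc1.ne' (by positivity), Real.log_mul hc2.ne' (by positivity)] at h4
    have h5 := phi_le (by positivity : 0 < (a : ℝ) + b + 1)
    have h6 := phi_ge (by positivity : 0 < (b : ℝ) + 1)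
    have h7 : 1 / ((a : ℝ) + b + 1) ≤ 1 / a := one_div_le_one_div_of_le ha0 (by linarith)
    have h8 : ((b + 1 : ℕ) : ℝ) / a = b / a + 1 / a := by
      push_cast
      ring
    rw [h8]
    push_cast
    have e1 : (a : ℝ) + (b + 1) + 1 = (a : ℝ) + b + 1 + 1 := by ring
    rw [e1]
    linarith

theorem ent_aux {μ ε : ℝ} (hμ : 0 < μ) (hε : 0 < ε) : ∃ c₀ : ℕ, ∀ c : ℕ, c₀ ≤ c →
    Real.exp (((1 + μ) * Real.log (1 + μ) - μ * Real.log μ - ε) * ((c : ℝ) + 2)) ≤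
      ((⌊μ * ((c : ℝ) + 2)⌋₊ + c - 1).choose ⌊μ * ((c : ℝ) + 2)⌋₊ : ℝ) := by
  have hN : Tendsto (fun c : ℕ => (c : ℝ) + 2) atTop atTop :=
    tendsto_atTop_add_const_right _ _ tendsto_natCast_atTop_atTop
  have hinv : Tendsto (fun c : ℕ => ((c : ℝ) + 2)⁻¹) atTop (𝓝 0) := tendsto_inv_atTop_zero.comp hN
  have hM : Tendsto (fun c : ℕ => (⌊μ * ((c : ℝ) + 2)⌋₊ : ℝ) / ((c : ℝ) + 2)) atTop (𝓝 μ) :=
    (tendsto_nat_floor_mul_div_atTop hμ.le).comp hN
  have hMinf : Tendsto (fun c : ℕ => μ * ((c : ℝ) + 2)) atTop atTop := hN.const_mul_atTop hμ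
  have hv : Tendsto (fun c : ℕ => ((⌊μ * ((c : ℝ) + 2)⌋₊ : ℝ) + 1) / ((c : ℝ) + 2)) atTop (𝓝 μ) := by
    have h1 := hM.add hinv
    rw [add_zero] at h1
    refine h1.congr fun c => ?_
    rw [add_div, one_div]
  have hw : Tendsto (fun c : ℕ => (c : ℝ) / ((c : ℝ) + 2)) atTop (𝓝 1) := by
    have h1 : Tendsto (fun c : ℕ => 1 - 2 * ((c : ℝ) + 2)⁻¹) atTop (𝓝 (1 - 2 * 0)) :=
      tendsto_const_nhds.sub (hinv.const_mul 2)
    rw [mul_zero, sub_zero] at h1
    refine h1.congr fun c => ?_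
    have : (c : ℝ) + 2 ≠ 0 := by positivity
    field_simp
    ring
  have hu : Tendsto (fun c : ℕ => ((⌊μ * ((c : ℝ) + 2)⌋₊ : ℝ) + c) / ((c : ℝ) + 2)) atTop
      (𝓝 (μ + 1)) := by
    refine (hM.add hw).congr fun c => ?_
    rw [add_div]
  have hlogN : Tendsto (fun c : ℕ => Real.log ((c : ℝ) + 2) / ((c : ℝ) + 2)) atTop (𝓝 0) := by
    have h1 := Real.isLittleO_log_id_atTop.tendsto_div_nhds_zero
    exact h1.comp hN
  have hrest : Tendsto (fun c : ℕ => 2 / μ * ((c : ℝ) + 2)⁻¹) atTop (𝓝 0) := by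
    have := hinv.const_mul (2 / μ)
    rwa [mul_zero] at this
  have hxlog : Continuous fun x : ℝ => x * Real.log x := Real.continuous_mul_log
  have hlim : Tendsto (fun c : ℕ =>
      ((⌊μ * ((c : ℝ) + 2)⌋₊ : ℝ) + c) / ((c : ℝ) + 2) *
        Real.log (((⌊μ * ((c : ℝ) + 2)⌋₊ : ℝ) + c) / ((c : ℝ) + 2)) -
      (c : ℝ) / ((c : ℝ) + 2) * Real.log ((c : ℝ) / ((c : ℝ) + 2)) -
      ((⌊μ * ((c : ℝ) + 2)⌋₊ : ℝ) + 1) / ((c : ℝ) + 2) *
        Real.log (((⌊μ * ((c : ℝ) + 2)⌋₊ : ℝ) + 1) / ((c : ℝ) + 2)) -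
      Real.log ((c : ℝ) + 2) / ((c : ℝ) + 2) - 2 / μ * ((c : ℝ) + 2)⁻¹) atTop
      (𝓝 ((μ + 1) * Real.log (μ + 1) - 1 * Real.log 1 - μ * Real.log μ - 0 - 0)) :=
    ((((hxlog.tendsto _).comp hu).sub ((hxlog.tendsto _).comp hw)).sub
      ((hxlog.tendsto _).comp hv)).sub hlogN |>.sub hrest
  have hlt : (1 + μ) * Real.log (1 + μ) - μ * Real.log μ - ε <
      (μ + 1) * Real.log (μ + 1) - 1 * Real.log 1 - μ * Real.log μ - 0 - 0 := by
    rw [Real.log_one, add_comm 1 μ]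
    linarith
  have hev := hlim.eventually (lt_mem_nhds hlt)
  have hev2 := hMinf.eventually (eventually_ge_atTop (2 : ℝ))
  obtain ⟨c₀, hc₀⟩ := eventually_atTop.1 ((hev.and hev2).and (eventually_ge_atTop 1))
  refine ⟨c₀, fun c hc => ?_⟩
  obtain ⟨⟨h1, h2⟩, h3⟩ := hc₀ c hc
  obtain ⟨N, hNd⟩ : ∃ N : ℝ, N = (c : ℝ) + 2 := ⟨_, rfl⟩
  have hc1 : (1 : ℝ) ≤ c := by exact_mod_cast h3
  have hN0 : 0 < N := by rw [hNd]; positivity
  obtain ⟨M, hMd⟩ : ∃ M : ℕ, M = ⌊μ * ((c : ℝ) + 2)⌋₊ := ⟨_, rfl⟩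
  rw [← hMd, ← hNd] at h1
  rw [← hMd, ← hNd]
  rw [← hNd] at h2
  have hMlow : μ * N / 2 ≤ M := by
    have h4 : μ * N < M + 1 := by
      rw [hMd, hNd]
      exact Nat.lt_floor_add_one _
    linarith
  have hM0 : (0 : ℝ) < M := lt_of_lt_of_le (by positivity) hMlow
  have hMpos : 0 < M := by exact_mod_cast hM0
  have h5 := choose_ge hMpos (c - 1)
  have h6 : M + (c - 1) = M + c - 1 := by omega
  have h7 : ((c - 1 : ℕ) : ℝ) = (c : ℝ) - 1 := by
    rw [Nat.cast_sub h3]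
    norm_num
  rw [h6, h7] at h5
  have e1 : (M : ℝ) + (c - 1) + 1 = M + c := by ring
  have e2 : (c : ℝ) - 1 + 1 = c := by ring
  rw [e1, e2] at h5
  have hchoose : (0 : ℝ) < ((M + c - 1).choose M : ℝ) := by
    exact_mod_cast Nat.choose_pos (by omega)
  rw [← Real.le_log_iff_exp_le hchoose]
  refine le_trans ?_ h5
  -- rewrite in terms of the quotients
  have g1 : ((M : ℝ) + c) * Real.log (M + c) = N * (((M : ℝ) + c) / N * Real.log (((M : ℝ) + c) / N)) +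
      (M + c) * Real.log N := by
    rw [Real.log_div (by positivity) hN0.ne']
    field_simp
    ring
  have g2 : (c : ℝ) * Real.log c = N * ((c : ℝ) / N * Real.log ((c : ℝ) / N)) + c * Real.log N := by
    rw [Real.log_div (by positivity) hN0.ne']
    field_simp
    ring
  have g3 : ((M : ℝ) + 1) * Real.log (M + 1) = N * (((M : ℝ) + 1) / N * Real.log (((M : ℝ) + 1) / N)) +
      (M + 1) * Real.log N := by
    rw [Real.log_div (by positivity) hN0.ne']
    field_simp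
    ring
  have g4 : ((c : ℝ) - 1) / M ≤ 2 / μ := by
    rw [div_le_div_iff₀ hM0 hμ]
    have : (c : ℝ) - 1 ≤ N := by rw [hNd]; linarith
    nlinarith
  have g5 := mul_le_mul_of_nonneg_left h1.le hN0.le
  rw [g1, g2, g3]
  have g6 : N * (Real.log N / N) = Real.log N := by field_simp
  have g7 : N * (2 / μ * N⁻¹) = 2 / μ := by field_simp
  have g8 : N * ((↑M + ↑c) / N * Real.log ((↑M + ↑c) / N) - ↑c / N * Real.log (↑c / N) -
      (↑M + 1) / N * Real.log ((↑M + 1) / N) - Real.log N / N - 2 / μ * N⁻¹) =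
      N * ((↑M + ↑c) / N * Real.log ((↑M + ↑c) / N)) - N * (↑c / N * Real.log (↑c / N)) -
      N * ((↑M + 1) / N * Real.log ((↑M + 1) / N)) - N * (Real.log N / N) - N * (2 / μ * N⁻¹) := by
    ring
  rw [g8, g6, g7] at g5
  linarith

end Pool.Agent.N628.SGE
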