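import Pool.Agent.N549.SG.Stm2
import Pool.Agent.N628.SGE.Ent

/-! SG/ENT -/

set_option autoImplicit false

namespace Pool.Agent.N628.SGE

theorem ent : Pool.Agent.N549.SG.S_ENT := fun _ _ hμ hε => ent_aux hμ hε

end Pool.Agent.N628.SGE
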